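import Pool.Agent.H598.ZC.Ext

/-!
# Points over constant field extensions
-/

namespace Pool.Agent.H598.ZC

open Polynomial Pool.Agent.H598.FQ Module

lemma size_of {k q r : ℕ} (hk : 2 ≤ k) (hq : k + 1 ≤ q) (hr : k * 2 ^ (k + 2) ≤ r) :
    (8 * k) ^ (k * 2 ^ k) ≤ q ^ r := by
  have h1 : 8 * k ≤ q ^ 4 := by
    have h27 : 27 ≤ (k + 1) ^ 3 := by
      calc 27 = 3 ^ 3 := rfl
        _ ≤ (k + 1) ^ 3 := Nat.pow_le_pow_left (by omega) 3
    calc 8 * k ≤ 27 * (k + 1) := by omega
      _ ≤ (k + 1) ^ 3 * (k + 1) := Nat.mul_le_mul_right _ h27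
      _ = (k + 1) ^ 4 := (pow_succ _ _).symm
      _ ≤ q ^ 4 := Nat.pow_le_pow_left hq 4
  calc (8 * k) ^ (k * 2 ^ k) ≤ (q ^ 4) ^ (k * 2 ^ k) := Nat.pow_le_pow_left h1 _
    _ = q ^ (k * 2 ^ (k + 2)) := by rw [← pow_mul]; congr 1; ring
    _ ≤ q ^ r := Nat.pow_le_pow_right (by omega) hr

lemma card_gt {F : Type*} [Field F] [Fintype F] {k : ℕ} (hchar : k < ringChar F) :
    k + 1 ≤ Fintype.card F := by
  have hp : 0 < ringChar F := by omega
  have h1 : Function.Injective (fun i : Fin (ringChar F) => ((i : ℕ) : F)) := by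
    intro i j hij
    apply Fin.ext
    have h2 := (CharP.cast_eq_iff_mod_eq F (ringChar F) (a := (i : ℕ)) (b := (j : ℕ))).1 hij
    rwa [Nat.mod_eq_of_lt i.2, Nat.mod_eq_of_lt j.2] at h2
  have h3 := Fintype.card_le_of_injective _ h1
  rw [Fintype.card_fin] at h3
  omega

/-- Points over the field `E(t)`. -/
theorem point_ext {F : Type*} [Field F] [Fintype F] {k : ℕ} (hk : 2 ≤ k) (hchar : k < ringChar F)
    {s : ℕ} (hs : 2 * k + 1 ≤ s) (E : Type*) [Field E] [Algebra F E]
    [FiniteDimensional F E] (hr : k * 2 ^ (k + 2) ≤ finrank F E) (a : Fin s → RatFunc E) :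
    ∃ x : Fin s → RatFunc E, x ≠ 0 ∧ ∑ i, a i * x i ^ k = 0 := by
  have hfin : Finite E := Module.finite_of_finite F
  let _ : Fintype E := Fintype.ofFinite E
  have hcard : Fintype.card E = Fintype.card F ^ finrank F E := Module.card_eq_pow_finrank
  have hch : ∀ i : ℕ, 1 ≤ i → i ≤ k → ((i : ℕ) : E) ≠ 0 := by
    intro i hi hik h0
    have h1 : (algebraMap F E) ((i : ℕ) : F) = 0 := by rw [map_natCast]; exact h0
    have h2 : ((i : ℕ) : F) = 0 := (_root_.map_eq_zero (algebraMap F E)).1 h1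
    have h3 : ringChar F ∣ i := ringChar.dvd h2
    have h4 := Nat.le_of_dvd (by omega) h3
    omega
  have hq : (8 * k) ^ (k * 2 ^ k) ≤ Fintype.card E := by
    rw [hcard]
    exact size_of hk (card_gt hchar) hr
  exact DG.diag_ratFunc hk hch (big_of_le hk hq) hs a

/-- Finite fields have extensions of every degree. -/
theorem exists_ext (F : Type*) [Field F] [Fintype F] {r : ℕ} (hr : 1 ≤ r) :
    ∃ (E : Type) (_ : Field E) (_ : Algebra F E), FiniteDimensional F E ∧ finrank F E = r := by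
  have : NeZero r := ⟨by omega⟩
  obtain ⟨p, hp⟩ := CharP.exists F
  have : Fact p.Prime := ⟨CharP.char_is_prime F p⟩
  exact ⟨FiniteField.Extension F p r, inferInstance, inferInstance, inferInstance,
    FiniteField.finrank_extension F p r⟩

end Pool.Agent.H598.ZC
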