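import Pool.Agent.H598.DG.Diag

/-!
# Constant field extensions
-/

namespace Pool.Agent.H598.ZC

open Polynomial Pool.Agent.H598.FQ

attribute [local instance] Polynomial.algebra

/-- The algebra structure of `E(t)` over `F(t)`. -/
noncomputable def algE (F E : Type*) [Field F] [Field E] [Algebra F E] :
    Algebra (RatFunc F) (RatFunc E) :=
  RatFunc.liftAlgebra F (RatFunc E)

lemma finrank_algE (F E : Type*) [Field F] [Field E] [Algebra F E] [Algebra.IsAlgebraic F E] :
    @Module.finrank (RatFunc F) (RatFunc E) _ _ (algE F E).toModule = Module.finrank F E :=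
  RatFunc.finrank_ratFunc_ratFunc F E

lemma algE_X (F E : Type*) [Field F] [Field E] [Algebra F E] :
    @algebraMap (RatFunc F) (RatFunc E) _ _ (algE F E) RatFunc.X = RatFunc.X := by
  letI := algE F E
  have h : algebraMap (RatFunc F) (RatFunc E) (algebraMap F[X] (RatFunc F) X)
      = algebraMap F[X] (RatFunc E) X := by
    exact IsFractionRing.lift_algebraMap (FaithfulSMul.algebraMap_injective F[X] (RatFunc E)) X
  rw [← RatFunc.algebraMap_X, h]
  have h2 : algebraMap F[X] (RatFunc E) X = algebraMap E[X] (RatFunc E) (algebraMap F[X] E[X] X) :=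
    rfl
  rw [h2]
  have h3 : algebraMap F[X] E[X] X = X := by
    rw [Polynomial.algebraMap_def]
    simp
  rw [h3, RatFunc.algebraMap_X]

lemma algE_C (F E : Type*) [Field F] [Field E] [Algebra F E] (c : F) :
    @algebraMap (RatFunc F) (RatFunc E) _ _ (algE F E) (RatFunc.C c)
      = RatFunc.C (algebraMap F E c) := by
  letI := algE F E
  have h : algebraMap (RatFunc F) (RatFunc E) (algebraMap F[X] (RatFunc F) (C c))
      = algebraMap F[X] (RatFunc E) (C c) := by
    exact IsFractionRing.lift_algebraMap (FaithfulSMul.algebraMap_injective F[X] (RatFunc E)) (C c)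
  rw [← RatFunc.algebraMap_C, h]
  have h2 : algebraMap F[X] (RatFunc E) (C c)
      = algebraMap E[X] (RatFunc E) (algebraMap F[X] E[X] (C c)) := rfl
  rw [h2]
  have h3 : algebraMap F[X] E[X] (C c) = C (algebraMap F E c) := by
    rw [Polynomial.algebraMap_def]
    simp
  rw [h3, RatFunc.algebraMap_C]

end Pool.Agent.H598.ZC
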