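import Mathlib

/-!
# Diagonal forms without zeros over fields of rational functions
-/

namespace Pool.Agent.H598.ZC

open Finset Polynomial

variable {F : Type*} [Field F]

/-- An anisotropic sum of `k`-th powers takes values of degree divisible by `k`. -/
lemma aniso_deg {k n : ℕ} (hk : 1 ≤ k) (hφ : ∀ c : Fin n → F, ∑ i, c i ^ k = 0 → c = 0)
    (x : Fin n → F[X]) : x = 0 ∨ ((∑ i, x i ^ k) ≠ 0 ∧ k ∣ (∑ i, x i ^ k).natDegree) := by
  by_cases hx : x = 0
  · exact Or.inl hx
  right
  obtain ⟨i₁, hi₁⟩ : ∃ i, x i ≠ 0 := by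
    by_contra hcon
    push Not at hcon
    exact hx (funext hcon)
  set P := (Finset.univ : Finset (Fin n)).sup (fun i => (x i).natDegree) with hP
  have hle : ∀ i, (x i).natDegree ≤ P := fun i =>
    Finset.le_sup (f := fun i => (x i).natDegree) (Finset.mem_univ i)
  have hcoeff : (∑ i, x i ^ k).coeff (k * P) = ∑ i, (x i).coeff P ^ k := by
    rw [finsetSum_coeff]
    apply Finset.sum_congr rfl
    intro i _
    exact coeff_pow_of_natDegree_le (hle i)
  have hne : (fun i => (x i).coeff P) ≠ 0 := by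
    intro h0
    obtain ⟨i₂, hi₂, hi₂P⟩ := Finset.exists_mem_eq_sup (Finset.univ : Finset (Fin n))
      ⟨i₁, Finset.mem_univ _⟩ (fun i => (x i).natDegree)
    rw [← hP] at hi₂P
    have h1 : (x i₂).coeff P = 0 := congrFun h0 i₂
    rw [hi₂P] at h1
    have h2 : x i₂ = 0 := leadingCoeff_eq_zero.1 h1
    rw [h2, natDegree_zero] at hi₂P
    have h3 : (x i₁).natDegree = 0 := by
      have := hle i₁
      omega
    have h4 : (x i₁).coeff P = 0 := congrFun h0 i₁
    rw [hi₂P, ← h3] at h4
    exact hi₁ (leadingCoeff_eq_zero.1 h4)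
  have hc0 : (∑ i, x i ^ k).coeff (k * P) ≠ 0 := by
    rw [hcoeff]
    intro h0
    exact hne (hφ _ h0)
  refine ⟨fun h0 => hc0 (by rw [h0, coeff_zero]), ?_⟩
  have hdeg : (∑ i, x i ^ k).natDegree = k * P := by
    apply le_antisymm
    · apply natDegree_sum_le_of_forall_le
      intro i _
      exact le_trans natDegree_pow_le (Nat.mul_le_mul_left _ (hle i))
    · exact le_natDegree_of_ne_zero hc0
  rw [hdeg]
  exact dvd_mul_right _ _

/-- Terms with different degrees modulo `k` do not cancel. -/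
lemma sum_ne {k : ℕ} (T : Fin k → F[X]) (hT : ∀ j, T j ≠ 0 → k ∣ (T j).natDegree)
    (h : ∑ j : Fin k, X ^ (j : ℕ) * T j = 0) : ∀ j, T j = 0 := by
  classical
  by_contra hcon
  push Not at hcon
  obtain ⟨j₁, hj₁⟩ := hcon
  set S : Finset (Fin k) := Finset.univ.filter (fun j => T j ≠ 0) with hS
  have hSne : S.Nonempty := ⟨j₁, by rw [hS, Finset.mem_filter]; exact ⟨Finset.mem_univ _, hj₁⟩⟩
  set f : Fin k → ℕ := fun j => (j : ℕ) + (T j).natDegree with hf
  obtain ⟨j₀, hj₀, hmax⟩ := Finset.exists_max_image S f hSne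
  have hTj₀ : T j₀ ≠ 0 := (Finset.mem_filter.1 hj₀).2
  have h1 : (∑ j : Fin k, X ^ (j : ℕ) * T j).coeff (f j₀) = 0 := by rw [h, coeff_zero]
  rw [finsetSum_coeff, Finset.sum_eq_single j₀] at h1
  · simp only [hf] at h1
    rw [add_comm, coeff_X_pow_mul] at h1
    exact hTj₀ (leadingCoeff_eq_zero.1 h1)
  · intro j _ hj
    by_cases hjS : T j = 0
    · rw [hjS, mul_zero, coeff_zero]
    · have hjS' : j ∈ S := by rw [hS, Finset.mem_filter]; exact ⟨Finset.mem_univ _, hjS⟩
      apply coeff_eq_zero_of_natDegree_lt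
      have h2 : (X ^ (j : ℕ) * T j).natDegree ≤ f j := by
        refine le_trans natDegree_mul_le ?_
        rw [natDegree_X_pow]
      refine lt_of_le_of_lt h2 (lt_of_le_of_ne (hmax j hjS') ?_)
      intro heq
      apply hj
      apply Fin.ext
      obtain ⟨u, hu⟩ := hT j hjS
      obtain ⟨v, hv⟩ := hT j₀ hTj₀
      have h4 : f j % k = f j₀ % k := by rw [heq]
      simp only [hf, hu, hv, Nat.add_mul_mod_self_left] at h4
      rwa [Nat.mod_eq_of_lt j.2, Nat.mod_eq_of_lt j₀.2] at h4
  · intro hj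
    exact absurd (Finset.mem_univ _) hj

/-- The coefficients of the form in `k ^ 2` variables. -/
noncomputable def cf (F : Type*) [Field F] (k : ℕ) (i : Fin (k * k)) : RatFunc F :=
  RatFunc.X ^ ((finProdFinEquiv.symm i).1 : ℕ)

lemma cf_ne {k : ℕ} (i : Fin (k * k)) : cf F k i ≠ 0 := pow_ne_zero _ RatFunc.X_ne_zero

theorem no_zero {k : ℕ} (hk : 1 ≤ k) (hφ : ∀ c : Fin k → F, ∑ i, c i ^ k = 0 → c = 0)
    (x : Fin (k * k) → RatFunc F) (h : ∑ i, cf F k i * x i ^ k = 0) : x = 0 := by
  classical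
  obtain ⟨b, hb⟩ := IsLocalization.exist_integer_multiples_of_finset (nonZeroDivisors F[X])
    (Finset.univ.image x)
  have hb0 : (b : F[X]) ≠ 0 := nonZeroDivisors.ne_zero b.2
  have hint : ∀ i, ∃ z : F[X], algebraMap F[X] (RatFunc F) z
      = algebraMap F[X] (RatFunc F) b * x i := by
    intro i
    obtain ⟨z, hz⟩ := hb (x i) (Finset.mem_image_of_mem x (Finset.mem_univ i))
    refine ⟨z, ?_⟩
    rw [hz, Algebra.smul_def]
  choose z hz using hint
  have hsum : ∑ j : Fin k, X ^ (j : ℕ) * (∑ i : Fin k, z (finProdFinEquiv (j, i)) ^ k) = 0 := by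
    apply IsFractionRing.injective F[X] (RatFunc F)
    rw [map_zero, map_sum]
    have h1 : ∑ i : Fin (k * k), cf F k i * (algebraMap F[X] (RatFunc F) (z i)) ^ k = 0 := by
      have h2 : ∀ i, cf F k i * (algebraMap F[X] (RatFunc F) (z i)) ^ k
          = (algebraMap F[X] (RatFunc F) b) ^ k * (cf F k i * x i ^ k) := by
        intro i
        rw [hz, mul_pow]; ring
      rw [Finset.sum_congr rfl (fun i _ => h2 i), ← Finset.mul_sum, h, mul_zero]
    rw [← Equiv.sum_comp (finProdFinEquiv (m := k) (n := k)), Fintype.sum_prod_type] at h1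
    rw [← h1]
    apply Finset.sum_congr rfl
    intro j _
    rw [map_mul, map_pow, RatFunc.algebraMap_X, map_sum, Finset.mul_sum]
    apply Finset.sum_congr rfl
    intro i _
    unfold cf
    rw [Equiv.symm_apply_apply, map_pow]
  have h3 := sum_ne _ (fun j hj => by
    rcases aniso_deg hk hφ (fun i => z (finProdFinEquiv (j, i))) with h | h
    · exfalso
      apply hj
      have h4 : ∀ i, z (finProdFinEquiv (j, i)) = 0 := fun i => congrFun h i
      rw [Finset.sum_congr rfl (fun i _ => by rw [h4 i, zero_pow (by omega)]),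
        Finset.sum_const_zero]
    · exact h.2) hsum
  have h5 : ∀ j i : Fin k, z (finProdFinEquiv (j, i)) = 0 := by
    intro j i
    rcases aniso_deg hk hφ (fun i => z (finProdFinEquiv (j, i))) with h | h
    · exact congrFun h i
    · exact absurd (h3 j) h.1
  funext i
  have hbne : algebraMap F[X] (RatFunc F) b ≠ 0 := RatFunc.algebraMap_ne_zero hb0
  have h6 : z i = 0 := by
    have := h5 (finProdFinEquiv.symm i).1 (finProdFinEquiv.symm i).2
    rwa [Prod.mk.eta, Equiv.apply_symm_apply] at this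
  have h7 := hz i
  rw [h6, map_zero] at h7
  exact (mul_eq_zero.1 h7.symm).resolve_left hbne

/-- Over the field with `k + 1` elements a sum of `k` `k`-th powers is anisotropic. -/
lemma small_field [Fintype F] {k : ℕ} (hk : 1 ≤ k) (hF : Fintype.card F = k + 1)
    (hchar : k < ringChar F) (c : Fin k → F) (h : ∑ i, c i ^ k = 0) : c = 0 := by
  classical
  have h1 : ∀ i, c i ^ k = if c i ≠ 0 then 1 else 0 := by
    intro i
    by_cases hc : c i = 0
    · rw [if_neg (by simpa using hc), hc, zero_pow (by omega)]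
    · rw [if_pos hc]
      have := FiniteField.pow_card_sub_one_eq_one (c i) hc
      rwa [hF, Nat.add_sub_cancel] at this
  rw [Finset.sum_congr rfl (fun i _ => h1 i), ← Finset.sum_filter, Finset.sum_const,
    nsmul_eq_mul, mul_one] at h
  have h2 : ringChar F ∣ (Finset.univ.filter (fun i : Fin k => c i ≠ 0)).card := ringChar.dvd h
  have h3 : (Finset.univ.filter (fun i : Fin k => c i ≠ 0)).card ≤ k := by
    refine le_trans (Finset.card_filter_le _ _) ?_
    rw [Finset.card_univ, Fintype.card_fin]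
  have h4 : (Finset.univ.filter (fun i : Fin k => c i ≠ 0)).card = 0 :=
    Nat.eq_zero_of_dvd_of_lt h2 (by omega)
  funext i
  by_contra hne
  have h5 : i ∈ Finset.univ.filter (fun i : Fin k => c i ≠ 0) := by
    rw [Finset.mem_filter]
    exact ⟨Finset.mem_univ _, hne⟩
  rw [Finset.card_eq_zero.1 h4] at h5
  exact absurd h5 (Finset.notMem_empty _)

end Pool.Agent.H598.ZC
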